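import Pool.Agent.U218.VX.Mild
import Pool.Agent.U218.VX.Val
import Pool.Agent.U218.UX.Der

/-!
# Twists without sections and valuations over the fields with a mild valuation above one prime

Let `K` be a number field and `m ≥ 1`.  Let `f ∈ K[x]` be a separable polynomial of degree at least 3
such that `σ^m` fixes no root of `f`, for some `σ ∈ G_K`.  This is so, for instance, if `f` is
irreducible and its degree is a power of a prime number that does not divide `m`; or if the Galois
group of `f` is the full symmetric group and the degree of `f` does not divide `m`.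

**Theorem.**  For all `a ∈ O_K` outside a set of density zero there is a prime ideal `v` of `O_K` prime
to `m` with the following property.  Let `ℓ` be a prime divisor of the degree of `f`, and let `L` be ANY
field over `K` with a discrete valuation above `v`, of ramification index prime to `ℓ` and with a residue
field inside the extension of degree `m` of the residue field of `v`.  Then for all multiples `n` of
`ℓ` the curve `a yⁿ = f(x)` over `L` has no `L`-point; no valuation of its function field which is
trivial on `L` has residue field `L`, nor has any such valuation of a larger field; and `π₁(U) → G_L` has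
no section, where `U` is the smooth projective curve over `L` with this equation, or any open subcurve,
or any smooth curve over `L` that dominates it.  The geometrically pro-`ℓ` fundamental group of the curve
`a y^ℓ = f(x)` over `L` has no section either.

Among these fields `L` are

* all subfields, finite or infinite over `K`, of the maximal Galois extension `K(m)` of `K` whose Galois
  group has exponent dividing `m`, if `ℓ` does not divide `m`; in particular all number fields `L ⊇ K`
  such that `[L : K]!` divides `m`;
* all number fields `L ⊇ K` which have a prime ideal above `v` with a ramification index prime to `ℓ` and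
  a residue degree dividing `m`;
* the completion `K_v` and its finite extensions with these invariants.

So the valuative section conjecture, that is the statement of Q1, holds for these curves and for all
curves that dominate them, over all these number fields and `p`-adic fields at once.

For `m = 1` and `L = K` the nonexistence of points and sections is known: see
`MP_2f3286_ag.QuadraticTwists` and `MP_e66f84_ag.SuperellipticTwists`.  Even for a single field `L ≠ K` the
theorem does not follow from these results for `L`, because `O_K` has density zero in `O_L`; and the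
union of infinitely many sets of density zero need not have density zero.  The condition on `m` cannot
be dropped: over the splitting field of `f` the curve has the points `(θ, 0)`.  For fields `L` which are
transcendental over `ℚ` see `MP_e66f84_ag.TwistsOverLargeFunctionFields`.

The fundamental group is described through valuations.  Let `U` be a smooth geometrically connected
curve over `k` with function field `F`, let `Ω` be an algebraic closure of `F`, and let `F_U` be the
maximal extension of `F` inside `Ω` which is unramified over the closed points of `U`, that is, over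
their local rings, which are valuation rings of `F`.  Then `π₁(U) = Gal(F_U/F)`, and the map
`π₁(U) → G_k` is the restriction of automorphisms to the algebraic closure of `k` in `Ω`.

Proof.  (1) There are many primes `v` of `K` (the sum of their inverse norms diverges) such that `f`
is separable modulo `v`, of the same degree, and without a root in the extension of degree `m` of the
residue field: the primes whose Frobenius is `σ`.  (2) Almost all `a` satisfy `v(a) = 1` for one of these
primes, prime to `m` and to the degree of `f`.  (3) If `v(a) = 1` and `L` is as above, then the value of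
`a` is prime to `ℓ`, and the local theorem for the twists `a y^ℓ = f(x)` over discrete valuation rings
with finite residue fields applies to `L`.  (4) At every prime above `v` of a finite Galois extension
`E/K` inside `K(m)` the inertia group is cyclic, because it is tame, so that the ramification index
divides `m`; and the residue field is contained in the extension of degree `m`, as it is generated by
the action of a Frobenius.  Hence `K(m)` has a discrete valuation as above.
-/

open Polynomial NumberField IsDedekindDomain WithZero

namespace Pool.Agent.Results.MP_896029_ag.MaximalExponentValuations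

section definitions

variable (ℓ : ℕ) (k F Ω : Type) [Field k] [Field F] [Field Ω] [Algebra k F] [Algebra F Ω]
  [Algebra k Ω]

/-- The inertia group of the valuation ring `W` of `Ω`, as a subgroup of `Gal(Ω/F)`: the
automorphisms of `Ω` over `F` that map `W` onto itself and act as the identity on its residue
field. -/
noncomputable def inertia (W : ValuationSubring Ω) : Subgroup (Ω ≃ₐ[F] Ω) :=
  (W.inertiaSubgroup F).map (W.decompositionSubgroup F).subtype

/-- `F_U`, for a set `U` of valuation rings of `F`: the elements of `Ω` fixed by the inertia groups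
of all valuation rings `W` of `Ω` with `W ∩ F ∈ U`.  If `Ω` is an algebraic closure of a field `F`
of characteristic zero, this is the maximal extension of `F` in `Ω` unramified over `U`. -/
noncomputable def unramified (U : Set (ValuationSubring F)) : IntermediateField F Ω :=
  ⨅ W : {W : ValuationSubring Ω // W.comap (algebraMap F Ω) ∈ U},
    IntermediateField.fixedField (inertia F Ω W.1)

/-- `k̄ F`, the compositum of `F` and of the algebraic closure of `k` in `Ω`. -/
noncomputable def geomField : IntermediateField F Ω :=
  IntermediateField.adjoin F (algebraicClosure k Ω : Set Ω)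

/-- The algebraic extension `L` of `K` in `Ω` is unramified at all valuation rings of `Ω` that
contain `k`: every nonzero element of `L` has the same valuation as an element of `K`.  (If `K` is
a function field of one variable over the algebraic closure of `k` and `k` has characteristic zero,
then this says that `L/K` is unramified over all points of the smooth projective curve.) -/
def Unramified {k K Ω : Type} [Field k] [Field K] [Field Ω] [Algebra k Ω] [Algebra K Ω]
    (L : IntermediateField K Ω) : Prop :=
  ∀ W : ValuationSubring Ω, (∀ c : k, algebraMap k Ω c ∈ W) → ∀ z ∈ L, z ≠ 0 →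
    ∃ t : K, t ≠ 0 ∧ z / algebraMap K Ω t ∈ W ∧ (z / algebraMap K Ω t)⁻¹ ∈ W

/-- `L/K` is a finite Galois extension whose degree is a power of `ℓ`. -/
def FiniteProEll (ℓ : ℕ) {K Ω : Type} [Field K] [Field Ω] [Algebra K Ω]
    (L : IntermediateField K Ω) : Prop :=
  FiniteDimensional K L ∧ IsGalois K L ∧ ∃ m : ℕ, Module.finrank K L = ℓ ^ m

/-- The maximal unramified pro-`ℓ` extension of `K` in `Ω`: the compositum of the finite Galois
extensions of `K` whose degree is a power of `ℓ` and which are unramified. -/
noncomputable def maxProEll (ℓ : ℕ) (k K Ω : Type) [Field k] [Field K] [Field Ω] [Algebra k Ω]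
    [Algebra K Ω] : IntermediateField K Ω :=
  ⨆ L : {L : IntermediateField K Ω // FiniteProEll ℓ L ∧ Unramified (k := k) L}, L.1

/-- `M`, the maximal unramified pro-`ℓ` extension of `k̄ F` in `Ω`, as an extension of `F`. -/
noncomputable def proEllField : IntermediateField F Ω :=
  (maxProEll ℓ k (geomField k F Ω) Ω).restrictScalars F

/-- The map `τ : M → M` acts as `σ : K → K` on the elements that the fields `K` and `M` have in
common when they are regarded as subfields of `Ω` through `i` and `j`. -/
def ActsAs {K M Ω : Type} [Field K] [Field M] [Field Ω] (i : K →+* Ω) (j : M →+* Ω) (σ : K → K)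
    (τ : M → M) : Prop :=
  ∀ c z, j z = i c → j (τ z) = i (σ c)

/-- Let `k ⊆ K ⊆ Ω` and `F ⊆ N ⊆ Ω` be fields.  A splitting of `Gal(N/F) → Gal(K/k)`: a continuous
homomorphism `s` from `Gal(K/k)` to `Gal(N/F)` such that `s(σ)` acts as `σ` on the elements of
`K ∩ N`. -/
structure Splitting (K N : Type) [Field K] [Field N] [Algebra k K] [Algebra F N] [Algebra K Ω]
    [Algebra N Ω] where
  /-- the homomorphism `Gal(K/k) → Gal(N/F)` -/
  toHom : (K ≃ₐ[k] K) →* (N ≃ₐ[F] N)
  cont : Continuous toHom
  compat : ∀ σ : K ≃ₐ[k] K, ActsAs (algebraMap K Ω) (algebraMap N Ω) σ (toHom σ)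

/-- There are no sections of `Gal(N/F) → G_k`, where `G_k = Gal(k̄/k)` and `k̄` is the algebraic
closure of `k` in `Ω`.  For `N = F_U` these are the sections of `π₁(U) → G_k`. -/
def NoSplitting (N : IntermediateField F Ω) : Prop :=
  IsEmpty (Splitting k F Ω (algebraicClosure k Ω) N)

end definitions

section curves

variable {k : Type} [Field k]

/-- The smooth projective curve with the affine equation `a yⁿ = f(x)` has no point over `k`:
neither in the affine part nor at infinity. -/
def NoPoint (n : ℕ) (a : k) (f : k[X]) : Prop :=
  (¬ ∃ x y : k, a * y ^ n = f.eval x) ∧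
    ¬ ∃ r : k, a * r ^ Nat.gcd n f.natDegree = f.leadingCoeff

/-- Let `F` be any field over `k` that contains a point `(x, y)` of the curve `a yⁿ = f(x)`, for
instance the function field of the curve, and let `Ω` be an algebraic closure of `F`.  Then for
every set `U` of valuation rings of `F` over `k` there is no section of `π₁(U) → G_k`.  If `F` is the
function field of the curve, such `U` are given by the smooth projective curve and by all its open
subcurves. -/
def NoSection (n : ℕ) (a : k) (f : k[X]) : Prop :=
  ∀ (F Ω : Type) [Field F] [Field Ω] [Algebra k F] [Algebra F Ω] [Algebra k Ω]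
    [IsScalarTower k F Ω] [IsAlgClosure F Ω] (x y : F) (U : Set (ValuationSubring F)),
    algebraMap k F a * y ^ n = aeval x f → (∀ O ∈ U, ∀ c : k, algebraMap k F c ∈ O) →
      NoSplitting k F Ω (unramified F Ω U)

/-- Let `F = k(x, y)` be the function field of the curve `a y^ℓ = f(x)`, let `Ω` be an algebraic
closure of `F`, and let `M` be the maximal unramified pro-`ℓ` extension of `k̄ F`.  For all
extensions `N ⊇ M` of `F` in `Ω`, in particular for `N = M`, there is no section of
`Gal(N/F) → G_k`. -/
def NoProEllSection (ℓ : ℕ) (a : k) (f : k[X]) : Prop :=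
  ∀ (F Ω : Type) [Field F] [Field Ω] [Algebra k F] [Algebra F Ω] [Algebra k Ω]
    [IsScalarTower k F Ω] [IsAlgClosure F Ω] (x y : F), Transcendental k x →
    algebraMap k F a * y ^ ℓ = aeval x f →
    IntermediateField.adjoin k {x, y} = (⊤ : IntermediateField k F) →
    ∀ N : IntermediateField F Ω, proEllField ℓ k F Ω ≤ N → NoSplitting k F Ω N

/-- For some element `σ` of the Galois group of `k`, the power `σ ^ m` fixes no root of `f`. -/
def HasPowerDerangement (m : ℕ) (f : k[X]) : Prop :=
  ∃ σ : AlgebraicClosure k ≃ₐ[k] AlgebraicClosure k,
    ∀ θ : AlgebraicClosure k, aeval θ f = 0 → (σ ^ m) θ ≠ θ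

end curves

/-- Let `F` be any field over `k` that contains a point `(x, y)` of the curve `a yⁿ = f(x)`, for
instance the function field of the curve. No valuation ring `O` of `F` that contains `k` has the
residue field `k`: not every element of `O` is congruent to an element of `k`. -/
def NoRationalValuation {k : Type} [Field k] (n : ℕ) (a : k) (f : k[X]) : Prop :=
  ∀ (F : Type) [Field F] [Algebra k F] (x y : F) (O : ValuationSubring F),
    algebraMap k F a * y ^ n = aeval x f → (∀ c : k, algebraMap k F c ∈ O) →
      ¬ ∀ z ∈ O, ∃ c : k, O.valuation (z - algebraMap k F c) < 1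

/-- `L` has a discrete valuation `V` above the prime `v` of `K`, whose ramification index is not
divisible by `ℓ` (`V = v^e` on `K` with `ℓ ∤ e`) and whose residue field is contained in the extension of
degree `m` of the residue field of `v` (`x^(N(v)^m) = x` in this field) -/
def Mild (m ℓ : ℕ) {K : Type} [Field K] [NumberField K] (v : HeightOneSpectrum (𝓞 K)) (L : Type)
    [Field L] [Algebra K L] : Prop :=
  ∃ (V : Valuation L ℤᵐ⁰) (e : ℕ), ¬ ℓ ∣ e ∧
    (∀ x : K, V (algebraMap K L x) = v.valuation K x ^ e) ∧
    ∀ x : L, V x ≤ 1 → V (x ^ (Ideal.absNorm v.asIdeal ^ m) - x) < 1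

/-- The curve `a yⁿ = f(x)` over `L` has no points, no valuations with residue field `L` and no sections,
for the positive multiples `n` of `ℓ`, and no section of the geometrically pro-`ℓ` fundamental group for
`n = ℓ`. -/
def NothingOver (ℓ : ℕ) {L : Type} [Field L] (a : L) (f : L[X]) : Prop :=
  (∀ n : ℕ, 0 < n → ℓ ∣ n → NoPoint n a f ∧ NoRationalValuation n a f ∧ NoSection n a f) ∧
    NoProEllSection ℓ a f

/-- For all prime divisors `ℓ` of the degree of `f` and all fields `L` over `K` with a mild valuation
above `v`, the twists by `a` have nothing over `L`. -/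
def NothingAbove (m : ℕ) {K : Type} [Field K] [NumberField K] (f : K[X]) (a : 𝓞 K)
    (v : HeightOneSpectrum (𝓞 K)) : Prop :=
  ∀ ℓ : ℕ, ℓ.Prime → ℓ ∣ f.natDegree → ∀ (L : Type) [Field L] [Algebra K L], Mild m ℓ v L →
    NothingOver ℓ (algebraMap K L a) (f.map (algebraMap K L))

/-- The integers `a` of `K` for which there is no prime `v` of `K`, prime to `m`, such that the twists by
`a` have nothing over all fields with a mild valuation above `v`. -/
def Exceptional (m : ℕ) {K : Type} [Field K] [NumberField K] (f : K[X]) : Set (𝓞 K) :=
  {a | ¬ ∃ v : HeightOneSpectrum (𝓞 K), (m : 𝓞 K) ∉ v.asIdeal ∧ NothingAbove m f a v}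

/-- Density zero: for every `ε > 0` there is an ideal `I` of `R` of finite index such that `E` lies
in at most `ε #(R/I)` residue classes modulo `I`. -/
def DensityZero {R : Type} [CommRing R] (E : Set R) : Prop :=
  ∀ ε : ℝ, 0 < ε → ∃ I : Ideal R, Finite (R ⧸ I) ∧
    (Set.ncard ((Ideal.Quotient.mk I) '' E) : ℝ) ≤ ε * Nat.card (R ⧸ I)

/-- `L` is isomorphic over `K` to a subfield of `K(m)`, the maximal Galois extension of `K` with a Galois
group of exponent dividing `m`; this is the field of all elements of the algebraic closure which are
fixed by `σ^m` for all `σ ∈ G_K`.  The finite extensions `L/K` with `[L : K]! ∣ m` have this property;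
they are also listed explicitly. -/
def InMaximal (m : ℕ) (K L : Type) [Field K] [Field L] [Algebra K L] : Prop :=
  (∃ i : L →ₐ[K] AlgebraicClosure K,
    ∀ (σ : AlgebraicClosure K ≃ₐ[K] AlgebraicClosure K) (x : L), (σ ^ m) (i x) = i x) ∨
  (FiniteDimensional K L ∧ (Module.finrank K L).factorial ∣ m)

/-- The number field `L` has a prime `w` above `v` with a ramification index that is not divisible by
`ℓ` and a residue field inside the extension of degree `m` of the residue field of `v`. -/
def HasMildPrime (m ℓ : ℕ) {K : Type} [Field K] [NumberField K] (v : HeightOneSpectrum (𝓞 K))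
    (L : Type) [Field L] [NumberField L] [Algebra K L] : Prop :=
  ∃ w : HeightOneSpectrum (𝓞 L), w.asIdeal.under (𝓞 K) = v.asIdeal ∧
    ¬ ℓ ∣ w.asIdeal.ramificationIdx (𝓞 K) ∧
    ∀ r : 𝓞 L, r ^ (Ideal.absNorm v.asIdeal ^ m) - r ∈ w.asIdeal

/-- Examples of fields with a mild valuation above `v`: the subfields of `K(m)`, the number fields with
a mild prime above `v`, and the completion of `K` at `v`. -/
def Examples (m ℓ : ℕ) {K : Type} [Field K] [NumberField K] (v : HeightOneSpectrum (𝓞 K)) : Prop :=
  (¬ ℓ ∣ m → (m : 𝓞 K) ∉ v.asIdeal → ∀ (L : Type) [Field L] [Algebra K L], InMaximal m K L →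
    Mild m ℓ v L) ∧
  (∀ (L : Type) [Field L] [NumberField L] [Algebra K L], HasMildPrime m ℓ v L → Mild m ℓ v L) ∧
  Mild m ℓ v (v.adicCompletion K)

lemma iSup_congr_prop {α : Type} [CompleteLattice α] {P Q : α → Prop} (h : ∀ L, P L ↔ Q L) :
    (⨆ L : {L // P L}, L.1) = ⨆ L : {L // Q L}, L.1 := by
  have h1 : P = Q := funext fun L => propext (h L)
  subst h1
  rfl

lemma proEll_eq (ℓ : ℕ) (k F Ω : Type) [Field k] [Field F] [Field Ω] [Algebra k F] [Algebra F Ω]
    [Algebra k Ω] : proEllField ℓ k F Ω = Pool.Agent.Y157.PS.geomPro ℓ k F Ω := by
  unfold proEllField Pool.Agent.Y157.PS.geomPro maxProEll Pool.Agent.Y157.PS.maxPro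
  congr 1
  refine iSup_congr_prop fun L => ?_
  constructor
  · rintro ⟨⟨h1, h2, h3⟩, h4⟩
    refine ⟨⟨h1, h2, h3⟩, fun W hW z hz hz0 => ?_⟩
    obtain ⟨t, ht, h5, h6⟩ := h4 W hW z hz hz0
    exact ⟨t, ht, div_ne_zero hz0 ((_root_.map_ne_zero _).2 ht), h5, h6⟩
  · rintro ⟨⟨h1, h2, h3⟩, h4⟩
    refine ⟨⟨h1, h2, h3⟩, fun W hW z hz hz0 => ?_⟩
    obtain ⟨t, ht, -, h5, h6⟩ := h4 W hW z hz hz0
    exact ⟨t, ht, h5, h6⟩

lemma of_fine {k : Type} [Field k] (l : ℕ) (a : k) (f : k[X])
    (h : Pool.Agent.Y157.PS.FineP l a f) (n : ℕ) (hn : l ∣ n) (hd : l ∣ f.natDegree) :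
    NoPoint n a f ∧ NoSection n a f := by
  obtain ⟨-, h1, h2, h3⟩ := h
  obtain ⟨n', rfl⟩ := hn
  refine ⟨⟨?_, ?_⟩, ?_⟩
  · rintro ⟨x, y, hxy⟩
    apply h2 x (y ^ n')
    rw [← hxy, ← pow_mul, mul_comm n' l]
  · rintro ⟨r, hr⟩
    obtain ⟨e, he⟩ := Nat.dvd_gcd (Dvd.intro n' rfl : l ∣ l * n') hd
    apply h3 (r ^ e)
    rw [← hr, ← pow_mul, mul_comm e l, he]
  · intro F Ω _ _ _ _ _ _ _ x y U hxy hU
    have hcl : IsAlgClosed Ω := IsAlgClosure.isAlgClosed F
    have halg : Algebra.IsAlgebraic F Ω := IsAlgClosure.isAlgebraic
    have h4 := h1 F Ω U hU x (y ^ n') (by rw [← hxy, ← pow_mul, mul_comm n' l])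
    exact ⟨fun s => h4.false ⟨s.toHom, s.cont, s.compat⟩⟩

lemma exists_emb_of_inMaximal {m : ℕ} {K L : Type} [Field K] [CharZero K] [Field L] [Algebra K L]
    (h : InMaximal m K L) : ∃ i : L →ₐ[K] AlgebraicClosure K,
      ∀ (σ : AlgebraicClosure K ≃ₐ[K] AlgebraicClosure K) (x : L), (σ ^ m) (i x) = i x := by
  rcases h with h | ⟨hfd, hm⟩
  · exact h
  · obtain ⟨c, hc⟩ := hm
    let i : L →ₐ[K] AlgebraicClosure K := IsAlgClosed.lift
    refine ⟨i, fun σ x => ?_⟩
    have h1 : ∀ j : ℕ, ((σ ^ (Module.finrank K L).factorial) ^ j) (i x) = i x := by
      intro j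
      induction j with
      | zero => rfl
      | succ j ih =>
        rw [pow_succ, AlgEquiv.mul_apply, Pool.Agent.U218.UX.pow_of_finrank le_rfl i σ x, ih]
    rw [hc, pow_mul]
    exact h1 c

/-- Let `K` be a number field, `m` a number, and `f ∈ K[x]` a separable polynomial of degree at least 3
such that `σ^m` fixes no root of `f` for some `σ ∈ G_K`; for instance, `f` can be irreducible of degree
`p^r ≥ 3` for a prime number `p` that does not divide `m`.  Then for all `a ∈ O_K` outside a set of
density zero there is a prime `v` of `K`, prime to `m`, such that for all prime divisors `ℓ` of the degree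
of `f` and all fields `L` over `K` which have a discrete valuation above `v` with ramification index
prime to `ℓ` and residue field inside the extension of degree `m`, the curves `a yⁿ = f(x)` over `L`,
`ℓ ∣ n`, and the curves dominating them have no points, no valuations with residue field `L` and no
sections.  Such fields are the subfields of the maximal extension `K(m)` of exponent `m` (for `ℓ ∤ m`),
the number fields with a mild prime above `v`, and the completion of `K` at `v`. -/
theorem result :
    (∀ (K : Type) [Field K] [NumberField K] (m : ℕ) (f : K[X]), f.Separable → 3 ≤ f.natDegree →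
      (HasPowerDerangement m f ∨
        (Irreducible f ∧ ∃ p r : ℕ, p.Prime ∧ f.natDegree = p ^ r ∧ ¬ p ∣ m)) →
      DensityZero (Exceptional m f)) ∧
    ∀ (K : Type) [Field K] [NumberField K] (m ℓ : ℕ), ℓ.Prime →
      ∀ v : HeightOneSpectrum (𝓞 K), Examples m ℓ v := by
  refine ⟨?_, ?_⟩
  · intro K _ _ m f hf h3 h
    have hσ : HasPowerDerangement m f := by
      rcases h with h | ⟨hirr, p, r, hp, hdeg, hpm⟩
      · exact h
      · exact Pool.Agent.U218.UX.exists_pow_derangement f hirr p r m hp hdeg (by omega) hpm
    intro ε hε
    obtain ⟨I, hI0, hIE⟩ := Pool.Agent.U218.VX.density m f hf h3 hσ ε hε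
    have hI : Finite (𝓞 K ⧸ I) := Ideal.finiteQuotientOfFreeOfNeBot _ hI0
    refine ⟨I, hI, le_trans ?_ hIE⟩
    refine Nat.cast_le.2 (Set.ncard_le_ncard (Set.image_mono ?_) (Set.toFinite _))
    intro a ha hfine
    obtain ⟨ha0, v, hmv, hv⟩ := hfine
    apply ha
    refine ⟨v, hmv, ?_⟩
    intro ℓ hℓ hℓd L _ _ hL
    have hfin := hv ℓ hℓ hℓd L hL
    have haL : algebraMap K L (algebraMap (𝓞 K) K a) ≠ 0 := by
      rw [Ne, map_eq_zero, map_eq_zero_iff _ (IsFractionRing.injective (𝓞 K) K)]
      exact ha0
    refine ⟨fun n hn hℓn => ?_, ?_⟩
    · obtain ⟨h1, h2⟩ := of_fine ℓ _ _ hfin n hℓn (by rw [natDegree_map]; exact hℓd)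
      refine ⟨h1, ?_, h2⟩
      intro F _ _ x y O hxy hO
      exact Pool.Agent.U218.VX.no_val O hn haL h1.1 h1.2 hxy hO
    · intro F Ω _ _ _ _ _ _ _ x y hx hxy hF N hN
      have hcl : IsAlgClosed Ω := IsAlgClosure.isAlgClosed F
      have halg : Algebra.IsAlgebraic F Ω := IsAlgClosure.isAlgebraic
      rw [proEll_eq] at hN
      exact ⟨fun s => hfin.1 F Ω x y hx hxy hF N hN s.toHom s.cont s.compat⟩
  · intro K _ _ m ℓ hℓ v
    refine ⟨fun hℓm hmv L _ _ hL => ?_, fun L _ _ _ hL => ?_, ?_⟩
    · obtain ⟨i, hi⟩ := exists_emb_of_inMaximal hL
      exact Pool.Agent.U218.VX.mild_of_emb hℓm i hi v hmv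
    · obtain ⟨w, hw, he, hres⟩ := hL
      exact Pool.Agent.U218.VX.mild_of_prime v w hw he hres
    · exact Pool.Agent.U218.VX.mild_completion m hℓ v

end Pool.Agent.Results.MP_896029_ag.MaximalExponentValuations
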