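import Pool.Agent.U188.SC.Main

/-!
# Sections over the products of a positive proportion of all elliptic curves

Let `K` be a number field, `v` a place over `2` which is unramified over `ℚ`, and `E_1, …, E_n` elliptic
curves `y² = x³ + A x + B`, `A`, `B` integers, `A` odd, `A = B` modulo `4`, with trivial 2-Selmer group
over `K` (`Good`). Let `X` be a closed subset over `K` of `E_1 × … × E_n` and `C` a smooth curve (or
variety) over `K` with function field `F` and a map to `X`, that is, a point `(P_1, …, P_n) ∈ X(F)`. Let
`F_C` be the maximal extension of `F` in an algebraic closure `Ω` which is unramified over the points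
of `C`, so that `π₁(C) = Gal(F_C/F)`. Let `s` be a section of the map from `π₁(C)` to the absolute
Galois group of `K` which is given over the completions of `K` at the finite places `w` by valuations of
`F_C` with values in an algebraic closure of the completion (places `pl w`), as in the valuative form of
the section conjecture.

Theorem. For all `k` the section `s` lifts to the covering of `C` by the multiplication by `2 ^ k`: some
points `Q_i` with `2 ^ k Q_i = P_i`, defined over `F_C`, are fixed by `s`. At the unramified places over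
`2` the centre of the valuation lies over the point `(O, …, O)`. So if `(O, …, O)` is not in `X`, there is
no such section; and this is so already for the sections of the quotient of `π₁(C)` given by the
coverings of degree `2 ^ k`, where `k` is effective: it is enough that an equation of `X` with
coefficients integral at `v` has at `(O, …, O)` a value not divisible by `2 ^ k`.

Theorem. Let `K / ℚ` be a Galois extension of 2-power degree in which `2` is unramified (`K = ℚ` is
allowed). Then a positive proportion of ALL elliptic curves over `ℚ`, ordered by height, satisfies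
the hypothesis over `K`, so that the first theorem holds for all curves with a map to a product of
these elliptic curves.

Nothing is assumed about the other primary parts of the Tate-Shafarevich groups. The division points
of the `P_i` over `F_C` give cocycles with values in the points of order `2 ^ k` which are locally
trivial, as the valuations give points of the coverings over the completions. As the 2-Selmer group is
trivial they are coboundaries, and so the division points can be chosen fixed by `s`. Then the local
point at `v` is divisible by all powers of two in `E_i(K_v)`, and it is zero by the reduction of type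
II (`MP_308fa9_nt.PositiveProportionDescent`).
-/

set_option autoImplicit false
set_option linter.all false

namespace Pool.Agent.Results.MP_896029_ag.SectionsPositiveProportion

open Filter NumberField IsDedekindDomain MvPolynomial
open Pool.Agent.TH115.GD (Pt Comp)
open Pool.Agent.TH954 (pm Plc OnX crd GalSection toSAct onX_red crd_pm exists_div_unram)
open Pool.Agent.TH942 (sw)
open Pool.Agent.W620.SC (unramified)
open Pool.Agent.U188.SC (LiftsTo geo core lifted locals far_loc disc_ne charZero_comp)
open Pool.Agent.Results.MP_308fa9_nt.PositiveProportionDescent (Curves curve Good MultiHom valueAtO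
  cv cv_two cv_coe curve_base far_zero value_int)
open Pool.Agent.U188.PP (Far un_of cong_of)
open scoped Classical

section

variable {K : Type} [Field K] [NumberField K] {n : ℕ} {p : Fin n → ℤ × ℤ}
  {S : Set (MvPolynomial (Fin n × Fin 3) K)}
  {F M B : Type} [Field F] [Field M] [Field B] [Algebra K F] [Algebra F M] [Algebra K M]
  [Algebra K B] [IsScalarTower K F M] [IsAlgClosure K B] [Algebra.IsAlgebraic F M]

/-- the local points of the section at a place -/
lemma loc_points (hG : ∀ i, Good K (p i)) (hS : ∀ f ∈ S, ∃ d, MultiHom d f)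
    (P : (i : Fin n) → ((curve K (p i)).baseChange F).toAffine.Point)
    (hPS : OnX S (fun i => crd (P i))) (s : GalSection K F M B)
    (pl : ∀ v : HeightOneSpectrum (𝓞 K), Plc K M (AlgebraicClosure (v.adicCompletion K)))
    (hp : ∀ v, s.GivenBy (v.adicCompletion K) (pl v)) (w : HeightOneSpectrum (𝓞 K))
    (v : HeightOneSpectrum (𝓞 K)) (hv : v.valuation K 2 = WithZero.exp (-1 : ℤ)) :
    ∃ Pv : (i : Fin n) → ((curve K (p i)).baseChange (w.adicCompletion K)).toAffine.Point,
      OnX S (fun i => crd (Pv i)) ∧
      (∀ i, (pl w).Spec (fun j => algebraMap F M (crd (P i) j)) (fun j =>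
        algebraMap (w.adicCompletion K) (AlgebraicClosure (w.adicCompletion K)) (crd (Pv i) j))) ∧
      ∀ k i, (∃ Q : ((curve K (p i)).baseChange M).toAffine.Point,
        2 ^ k • Q = pm (curve K (p i)) (IsScalarTower.toAlgHom K F M) (P i)) →
          ∃ z, 2 ^ k • z = Pv i := by
  choose Pv h1 h2 using fun i => locals (hG i) s (geo s pl hp w) (P i)
  have hX : OnX S (fun i j => algebraMap (w.adicCompletion K)
      (AlgebraicClosure (w.adicCompletion K)) (crd (Pv i) j)) := by
    refine onX_red (pl w) (fun f hf => hS f hf)
      (V := fun i => crd (pm (sw ((p i).1 : K) ((p i).2 : K)) (IsScalarTower.toAlgHom K F M) (P i)))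
      (fun i => ?_) ?_
    · obtain ⟨u, hu0, hu⟩ := h1 i
      exact ⟨u, hu0, fun j => hu j⟩
    · intro q hq
      have h3 := congrArg (IsScalarTower.toAlgHom K F M) (hPS q hq)
      rw [map_zero, comp_aeval_apply] at h3
      have h4 : (fun t : Fin n × Fin 3 => crd (pm (sw ((p t.1).1 : K) ((p t.1).2 : K))
          (IsScalarTower.toAlgHom K F M) (P t.1)) t.2) =
          fun t : Fin n × Fin 3 => (IsScalarTower.toAlgHom K F M) (crd (P t.1) t.2) := by
        funext t
        exact crd_pm _ _ _
      change aeval (fun t : Fin n × Fin 3 => crd (pm (sw ((p t.1).1 : K) ((p t.1).2 : K))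
          (IsScalarTower.toAlgHom K F M) (P t.1)) t.2) q = 0
      rw [h4]
      exact h3
  refine ⟨Pv, ?_, fun i => ?_, fun k i hQ => ?_⟩
  · intro f hf
    have h3 := hX f hf
    have h4 := aeval_algebraMap_apply (AlgebraicClosure (w.adicCompletion K))
      (fun t : Fin n × Fin 3 => crd (Pv t.1) t.2) f
    have h5 := h4.symm.trans h3
    exact (map_eq_zero _).1 h5
  · obtain ⟨u, hu0, hu⟩ := h1 i
    refine ⟨u, hu0, fun j => ?_⟩
    obtain ⟨h3, h4⟩ := hu j
    have h5 : crd (pm (sw ((p i).1 : K) ((p i).2 : K)) (IsScalarTower.toAlgHom K F M) (P i)) j =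
        algebraMap F M (crd (P i) j) := crd_pm _ _ _
    have h6 : ∀ x : M, x = algebraMap F M (crd (P i) j) → ∀ h : u * x ∈ (pl w).W,
        (pl w).ρ ⟨u * x, h⟩ = algebraMap (w.adicCompletion K)
          (AlgebraicClosure (w.adicCompletion K)) (crd (Pv i) j) →
        (pl w).val (u * algebraMap F M (crd (P i) j)) (algebraMap (w.adicCompletion K)
          (AlgebraicClosure (w.adicCompletion K)) (crd (Pv i) j)) := by
      rintro x rfl h h'
      exact ⟨h, h'⟩
    exact h6 _ h5 h3 h4
  · obtain ⟨Q, hQ⟩ := hQ
    exact h2 i k (core (hG i) v hv s pl hp (P i) Q hQ)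

lemma crd_eq {L : Type} [Field L] {W : WeierstrassCurve L} (P : W.toAffine.Point) :
    crd P = Pool.Agent.U188.PP.coords P := by
  rcases P with _ | ⟨x, y, h⟩
  · rfl
  · rfl

/-- the value at `(O, …, O)` over an extension -/
lemma aeval_O (L : Type) [Field L] [Algebra K L] (f : MvPolynomial (Fin n × Fin 3) K) :
    aeval (fun q : Fin n × Fin 3 => (![0, 1, 0] : Fin 3 → L) q.2) f =
      algebraMap K L (valueAtO f) :=
  Pool.Agent.Results.MP_308fa9_nt.PositiveProportionDescent.aeval_O L f

/-- points near `(O, …, O)` -/
lemma value_near (hG : ∀ i, Good K (p i)) (w : HeightOneSpectrum (𝓞 K))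
    (hw : w.valuation K 2 = WithZero.exp (-1 : ℤ)) {k : ℕ}
    {Pv : (i : Fin n) → ((curve K (p i)).baseChange (w.adicCompletion K)).toAffine.Point}
    (hPv : OnX S (fun i => crd (Pv i)))
    (hk : ∀ i, ∃ z, 2 ^ (k + 1) • z = Pv i) {f : MvPolynomial (Fin n × Fin 3) K} (hf : f ∈ S)
    {d : Fin n → ℕ} (hd : MultiHom d f) {C : WithZero (Multiplicative ℤ)}
    (hC : ∀ m, w.valuation K (coeff m f) ≤ C) :
    w.valuation K (valueAtO f) ≤ C * WithZero.exp (-1 : ℤ) ^ (k + 1) := by
  have h1 := hPv f hf
  rw [aeval_def, ← eval_map] at h1
  have e : (fun q : Fin n × Fin 3 => Pool.Agent.U188.PP.coords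
      (W := (curve K (p q.1)).baseChange (Comp (𝓞 K) K w)) (Pv q.1) q.2) =
      fun q : Fin n × Fin 3 => crd (Pv q.1) q.2 := by
    funext q
    exact (congrFun (crd_eq _) _).symm
  have h2 := Pool.Agent.U188.PP.close (v := cv w) (un_of (cv_two hw))
    (fun i => (curve K (p i)).baseChange (Comp (𝓞 K) K w)) (fun i => ((p i).1 : Comp (𝓞 K) K w))
    (fun i => ((p i).2 : Comp (𝓞 K) K w)) (fun i => curve_base (p i) _)
    (fun i => cong_of (hG i).odd (hG i).cong) (k := k + 1) (by omega) (P := Pv)
    (fun i => far_loc (hG i) hw (hk i)) (d := d)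
    (f := map (algebraMap K (Comp (𝓞 K) K w)) f) (by
      intro m hm i
      exact hd m (support_map_subset _ f hm) i) (C := C) (by
      intro m
      rw [coeff_map]
      exact (le_of_eq (cv_coe w _)).trans (hC m))
    ((congrArg (fun u => eval u (map (algebraMap K (Comp (𝓞 K) K w)) f)) e).trans h1)
  rw [cv_two hw, eval_map, ← aeval_def, aeval_O] at h2
  exact (le_of_eq (cv_coe w _).symm).trans h2

end

section

variable {K : Type} [Field K] [NumberField K] {n : ℕ} {p : Fin n → ℤ × ℤ}

/-- The `F`-points of `E_1 × … × E_n`. -/
abbrev Pts (K : Type) [Field K] {n : ℕ} (p : Fin n → ℤ × ℤ) (F : Type) [Field F] [Algebra K F] :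
    Type :=
  (i : Fin n) → ((curve K (p i)).baseChange F).toAffine.Point

/-- The point `P` lies on the closed subset `X` with the equations `S`. -/
def On {F : Type} [Field F] [Algebra K F] (S : Set (MvPolynomial (Fin n × Fin 3) K))
    (P : Pts K p F) : Prop := OnX S (fun i => crd (P i))

/-- A place of `M` with values in an algebraic closure of the completion, for each finite place. -/
abbrev Places (K : Type) [Field K] [NumberField K] (M : Type) [Field M] [Algebra K M] : Type :=
  ∀ w : HeightOneSpectrum (𝓞 K), Plc K M (AlgebraicClosure (w.adicCompletion K))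

/-- The section `s` is given at each finite place `w` by the valuation `pl w`. -/
def Locally {F M B : Type} [Field F] [Field M] [Field B] [Algebra F M] [Algebra K M] [Algebra K B]
    (s : GalSection K F M B) (pl : Places K M) : Prop :=
  ∀ w, s.GivenBy (w.adicCompletion K) (pl w)

/-- The valuation lies over the point `(O, …, O)`: the `P i` specialise to `O`. -/
def CentreO {F M C : Type} [Field F] [Field M] [Field C] [Algebra K F] [Algebra F M] [Algebra K M]
    [Algebra K C] (pl : Plc K M C) (P : Pts K p F) : Prop :=
  ∀ i, pl.Spec (fun j => algebraMap F M (crd (P i) j)) ![0, 1, 0]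

/-- At the unramified places over `2` the valuation lies over the point `(O, …, O)`. -/
def OverO {F M : Type} [Field F] [Field M] [Algebra K F] [Algebra F M] [Algebra K M]
    (pl : Places K M) (P : Pts K p F) : Prop :=
  ∀ w : HeightOneSpectrum (𝓞 K), w.valuation K 2 = WithZero.exp (-1 : ℤ) → CentreO (pl w) P

/-- Each `P i` has over `M` a division point `Q` by `N`. -/
def Divisible {F : Type} [Field F] [Algebra K F] (P : Pts K p F) (N : ℕ) (M : Type) [Field M]
    [Algebra F M] [Algebra K M] [IsScalarTower K F M] : Prop :=
  ∀ i, ∃ Q : ((curve K (p i)).baseChange M).toAffine.Point,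
    N • Q = pm (curve K (p i)) (IsScalarTower.toAlgHom K F M) (P i)

/-- The theorem on sections of `π₁(C)`: for every smooth variety `C` over `K` (function field `F`,
local rings of the points of codimension one) with a map to the closed subset `X` with the equations
`S`, that is, a point `P` of `X` over `F`, and every section `s`, given at the finite places by
valuations `pl w`, of `Gal(M / F) → Gal(B / K)`, where `M` contains the maximal extension of `F`
unramified over `C`: the section lifts to the coverings by `2 ^ k`, the valuations at the unramified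
places over `2` lie over `(O, …, O)`, and `(O, …, O)` is in `X`. -/
def SectionsLift (K : Type) [Field K] [NumberField K] {n : ℕ} (p : Fin n → ℤ × ℤ)
    (S : Set (MvPolynomial (Fin n × Fin 3) K)) : Prop :=
  ∀ (F Ω M B : Type) [Field F] [Field Ω] [Field M] [Field B] [Algebra K F] [Algebra F Ω]
    [Algebra K Ω] [Algebra F M] [Algebra K M] [Algebra K B] [IsScalarTower K F Ω]
    [IsScalarTower K F M] [IsAlgClosure F Ω] [IsAlgClosure K B]
    (C : Set (ValuationSubring F)), (∀ O ∈ C, ∀ c : K, algebraMap K F c ∈ O) →
    ∀ e : M →ₐ[F] Ω, unramified F Ω C ≤ e.fieldRange →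
    ∀ P : Pts K p F, On S P → ∀ (s : GalSection K F M B) (pl : Places K M), Locally s pl →
    (∀ k i, LiftsTo s (curve K (p i)) (P i) (2 ^ k)) ∧ OverO pl P ∧ ∀ f ∈ S, valueAtO f = 0

/-- There is no section, given at the finite places by valuations, of `Gal(M / F) → Gal(B / K)`, if `F`
has a point `P` of `X` (equations `S`) and `M` contains division points of the `P i` by `N`. -/
def NoSection (K : Type) [Field K] [NumberField K] {n : ℕ} (p : Fin n → ℤ × ℤ)
    (S : Set (MvPolynomial (Fin n × Fin 3) K)) (N : ℕ) : Prop :=
  ∀ (F M B : Type) [Field F] [Field M] [Field B] [Algebra K F] [Algebra F M]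
    [Algebra K M] [Algebra K B] [IsScalarTower K F M] [IsAlgClosure K B]
    [Algebra.IsAlgebraic F M] (P : Pts K p F), On S P → Divisible P N M →
    ¬ ∃ (s : GalSection K F M B) (pl : Places K M), Locally s pl

end

/-- **Main theorem.** -/
theorem result :
    (∀ (K : Type) [Field K] [NumberField K] (v : HeightOneSpectrum (𝓞 K)),
      v.valuation K 2 = WithZero.exp (-1 : ℤ) →
      ∀ (n : ℕ) (p : Fin n → ℤ × ℤ), (∀ i, Good K (p i)) →
      ∀ S : Set (MvPolynomial (Fin n × Fin 3) K), (∀ f ∈ S, ∃ d, MultiHom d f) →
      -- sections of fundamental groups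
      SectionsLift K p S ∧
      -- sections of finite level
      (∀ k : ℕ, ∀ f ∈ S, (∀ m, v.valuation K (coeff m f) ≤ 1) →
        v.valuation K (2 ^ k) < v.valuation K (valueAtO f) → NoSection K p S (2 ^ k))) ∧
    -- positive proportion
    (∀ (K : Type) [Field K] [NumberField K] [IsGalois ℚ K] (n : ℕ),
      Module.finrank ℚ K = 2 ^ n → (∀ 𝔭 : Ideal (𝓞 K), 𝔭.IsPrime → (2 : 𝓞 K) ∉ 𝔭 ^ 2) →
      ∃ c : ℝ, 0 < c ∧ ∀ᶠ X : ℕ in atTop, 0 < (Curves X).ncard ∧
        c * ((Curves X).ncard : ℝ) ≤ (({p ∈ Curves X | Good K p}).ncard : ℝ)) := by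
  refine ⟨fun K _ _ v hv n p hG S hS => ⟨?_, ?_⟩, fun K _ _ _ n hn h2 =>
    (Pool.Agent.Results.MP_308fa9_nt.PositiveProportionDescent.result.2 K n hn h2).2⟩
  · intro F Ω M B _ _ _ _ _ _ _ _ _ _ _ _ _ _ C hC e he P hPS s pl hp
    have hΩ1 : IsAlgClosed Ω := IsAlgClosure.isAlgClosed F
    have hΩ2 : Algebra.IsAlgebraic F Ω := IsAlgClosure.isAlgebraic
    have hMalg : Algebra.IsAlgebraic F M := Algebra.IsAlgebraic.of_injective e e.injective
    have hcΩ : CharZero Ω := charZero_of_injective_algebraMap (algebraMap K Ω).injective
    have hdiv : ∀ k i, ∃ Q : ((sw ((p i).1 : K) ((p i).2 : K)).baseChange M).toAffine.Point,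
        2 ^ k • Q = pm (sw ((p i).1 : K) ((p i).2 : K)) (IsScalarTower.toAlgHom K F M) (P i) :=
      fun k i => exists_div_unram (disc_ne (hG i)) ((e.restrictScalars K).comp (toSAct s).j) C hC e
        he (P i) Nat.one_le_two_pow
    have hfar : ∀ w : HeightOneSpectrum (𝓞 K), w.valuation K 2 = WithZero.exp (-1 : ℤ) →
        ∃ Pv : (i : Fin n) → ((curve K (p i)).baseChange (w.adicCompletion K)).toAffine.Point,
          OnX S (fun i => crd (Pv i)) ∧
          (∀ i, (pl w).Spec (fun j => algebraMap F M (crd (P i) j)) (fun j =>
            algebraMap (w.adicCompletion K) (AlgebraicClosure (w.adicCompletion K))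
              (crd (Pv i) j))) ∧ ∀ i, Pv i = 0 := by
      intro w hw
      obtain ⟨Pv, h1, h2, h3⟩ := loc_points hG hS P hPS s pl hp w v hv
      exact ⟨Pv, h1, h2, fun i => far_zero w hw fun k =>
        far_loc (hG i) hw (h3 (k + 1) i (hdiv (k + 1) i))⟩
    refine ⟨fun k i => ?_, fun w hw i => ?_, fun f hf => ?_⟩
    · obtain ⟨Q, hQ⟩ := hdiv k i
      exact lifted s (P i) (core (hG i) v hv s pl hp (P i) Q hQ)
    · obtain ⟨Pv, -, h2, h3⟩ := hfar w hw
      have h4 := h2 i
      rw [h3 i] at h4
      have h5 : (fun j => algebraMap (w.adicCompletion K) (AlgebraicClosure (w.adicCompletion K))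
          (crd (0 : ((curve K (p i)).baseChange (w.adicCompletion K)).toAffine.Point) j)) =
          ![0, 1, 0] := by
        funext j
        change algebraMap (w.adicCompletion K) (AlgebraicClosure (w.adicCompletion K))
          ((![0, 1, 0] : Fin 3 → w.adicCompletion K) j) = _
        fin_cases j <;> simp
      rw [h5] at h4
      exact h4
    · obtain ⟨Pv, h1, -, h3⟩ := hfar v hv
      have h4 := h1 f hf
      have e1 : (fun q : Fin n × Fin 3 => crd (Pv q.1) q.2) =
          fun q : Fin n × Fin 3 => (![0, 1, 0] : Fin 3 → v.adicCompletion K) q.2 := by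
        funext ⟨i, j⟩
        show crd (Pv i) j = _
        rw [h3 i]
        rfl
      change aeval (fun q : Fin n × Fin 3 => crd (Pv q.1) q.2) f = 0 at h4
      rw [e1, aeval_O] at h4
      exact (map_eq_zero _).1 h4
  · intro k f hf hint hlt F M B _ _ _ _ _ _ _ _ _ _ P hPS hQ
    rintro ⟨s, pl, hp⟩
    obtain ⟨Pv, h1, -, h3⟩ := loc_points hG hS P hPS s pl hp v v hv
    rcases k with _ | k
    · rw [pow_zero, map_one] at hlt
      exact absurd (value_int v hint) (not_le.2 hlt)
    · obtain ⟨d, hd⟩ := hS f hf
      have h4 := value_near hG v hv h1 (fun i => h3 (k + 1) i (hQ i)) hf hd (C := 1) hint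
      rw [one_mul] at h4
      rw [map_pow, hv] at hlt
      exact absurd h4 (not_le.2 hlt)

end Pool.Agent.Results.MP_896029_ag.SectionsPositiveProportion
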