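import Mathlib
import Pool.Agent.U188.TS.Fin
import Pool.Agent.U188.TS.Sel
import Pool.Agent.U860.DS.Tor
import Pool.Agent.Y971.SG.Lq

/-!
# Sections of fundamental groups of curves with a map to a product of elliptic curves with rational
# points of order two

**The general theorem.**  Let `K` be a number field with a place `v` with `K_v = ℚ_2`, and let
`E_1, …, E_n` be elliptic curves over `ℚ` such that `E_i(K)` is finite, the 2-primary part of
`Ш(E_i/K)` has bounded exponent, and all the points of finite order of `E_i(ℚ_2)` are rational. The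
`E_i(K)` may have points of order two, and nothing is assumed about the other parts of `Ш`. Let `X` be
any closed subset of `E_1 × … × E_n` defined over `K`, and let `C` be a smooth curve (or variety) over
`K` with function field `F` and a map to `X`, that is, a point `P = (P_1, …, P_n) ∈ X(F)`; for instance
`C = X`. Let `F_C` be the maximal extension of `F` in an algebraic closure which is unramified over the
points of `C`, so that `π₁(C) = Gal(F_C/F)`. Let `s` be a section of the map from `π₁(C)` to the absolute
Galois group of `K` which is given over the completions of `K` at the finite places `w` by valuations of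
`F_C` with values in an algebraic closure of the completion (places `pl w`), as in the valuative form of
the section conjecture. (1) If `K_v = ℚ_2` then there is a `K`-rational point `x` of `X` such that the
valuation `pl v` lies over `x`, and such that for all `k` the section `s` lifts to the covering of
`P - x` by the multiplication by `2 ^ k`: the section has the same 2-adic Kummer classes as the rational
point `x`, and its restriction to the decomposition group at `v` comes from `x`. (2) If `X(K)` is empty
there is no such section `s`, and even no such section of a certain finite level `2 ^ k`, where `k`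
depends only on `X`, but not on `C`.

**The curves.**  Let `E : y² = x³ + a x² + b x` with integers `a`, `b`, such that `0` and `(0, 0)` are
the only points of finite order of `E(ℚ_2)`; this is so if `a` is even and `b = 2` modulo `4`, for
instance for `y² = x³ + 2 x² + 2 x` (`j = 128`, no complex multiplication). Let `D = 1` modulo `8` and let
`E_D` be the twist `y² = x³ + a D x² + b D² x`. If `E_D(ℚ)` is finite and `Ш(E_D/ℚ)[2^∞] = 0`
(`TrivialTwo`) then `E_D` satisfies the conditions over `ℚ`; so (1) and (2) are true over `ℚ` for ALL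
curves with a map to ANY product of such curves `E_D`, also for different `(a, b)`. The condition
`TrivialTwo` is true if the Selmer groups of the isogeny of degree two and of its dual of `E_D` are as
small as possible: the product of their orders is four (`Minimal`). This is a finite computation for each
curve; it is true for `y² = x³ + 2 x² + 2 x`. By `MP_d37f77_nt.TwistsWithTwoIsogenyDescent` exactly the
proportion `∏_{i ≥ 0} (1 - 2^{-(2i+1)}) = 0.4194...` of the twists in a certain class satisfies
`TrivialTwo`, for each minimal `E`.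

The proof of the general theorem.  The division points of the `P_i` over `F_C` give cocycles with values
in the points of order `2 ^ k` which are locally trivial at the finite places, as the valuations give
points of the coverings over the completions; two times a class is trivial at the real places. As
`Ш[2^∞]` is killed by `2 ^ m` the classes come after multiplication by `2 ^ (m + 1)` from rational points
`y` of the `E_i`; these are finite in number, which gives one point `y` for all `k`. The local point at
`v` differs from `y` by a point divisible by all powers of two in `E_i(ℚ_2)`; this has odd order, so it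
is rational. For (2) we use the compactness of `X(ℚ_2)`. The local theory is that of
`MP_d37f77_nt.TwistsWithTwoIsogenyDescent` (helper860).

The bound of the rank and of `Ш[2]` by the two Selmer groups is from project GE (helper115, helper796).
-/

set_option autoImplicit false
set_option linter.all false

open IsDedekindDomain NumberField WeierstrassCurve MvPolynomial
open Pool.Agent.TH954 (pm Plc OnX crd GalSection toSAct MultiHom)
open Pool.Agent.TH841.NF.D (Sha)
open Pool.Agent.W620.SC (unramified)
open Pool.Agent.U188.TS (LiftsDiff sections_two no_section div_unram bs_sw disc_sw)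

open scoped Classical

namespace Pool.Agent.Results.MP_896029_ag.SectionsTwoIsogeny

/-- `W` is an elliptic curve `y² = x³ + a x + b` with integral coefficients. -/
def IsShort (W : WeierstrassCurve ℤ) : Prop := (W.a₁ = 0 ∧ W.a₂ = 0 ∧ W.a₃ = 0) ∧ W.Δ ≠ 0

/-- All the points of finite order of `W(ℚ_2)` are rational. -/
def TorsionRational (W : WeierstrassCurve ℤ) : Prop :=
  ∀ (P : (W.map (Int.castRingHom ℚ_[2])).toAffine.Point) (m : ℕ), 0 < m → m • P = 0 →
    ∃ y : (W.map (Int.castRingHom ℚ)).toAffine.Point, ∀ j, crd P j = algebraMap ℚ ℚ_[2] (crd y j)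

section

variable (K : Type) [Field K] [NumberField K]

/-- `W(K)` is finite and the 2-primary part of `Ш(W/K)` has bounded exponent. -/
def FiniteOver (W : WeierstrassCurve ℤ) : Prop :=
  Finite (W.map (Int.castRingHom K)).toAffine.Point ∧ ∃ M : ℕ, 0 < M ∧
    ∀ (j : ℕ) (s : Sha (W.map (Int.castRingHom K))), 2 ^ j • s = 0 → M • s = 0

/-- `v` is a place of `K` above two of residue degree one and not ramified, so that `K_v = ℚ_2`. -/
def IsTwoAdic (v : HeightOneSpectrum (𝓞 K)) : Prop :=
  Ideal.absNorm v.asIdeal = 2 ∧ v.valuation K ((2 : ℕ) : K) = WithZero.exp (-1 : ℤ)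

end

section

variable {K : Type} [Field K] {n : ℕ}

/-- `W` over `K` -/
abbrev ext (W : WeierstrassCurve ℤ) (K : Type) [Field K] : WeierstrassCurve K :=
  W.map (Int.castRingHom K)

/-- The `L`-points of `W_1 × … × W_n`, for an extension `L` of `K`. -/
abbrev Pts (K : Type) [Field K] {n : ℕ} (W : Fin n → WeierstrassCurve ℤ) (L : Type) [Field L]
    [Algebra K L] : Type :=
  (i : Fin n) → ((ext (W i) K).baseChange L).toAffine.Point

/-- The point `P` lies on the closed subset `X` with the equations `S`. -/
def On {W : Fin n → WeierstrassCurve ℤ} {L : Type} [Field L] [Algebra K L]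
    (S : Set (MvPolynomial (Fin n × Fin 3) K)) (P : Pts K W L) : Prop := OnX S (fun i => crd (P i))

/-- The valuation `pl` lies over the `K`-rational point `x`: the `P i` specialise to the `x i`. -/
def Over {W : Fin n → WeierstrassCurve ℤ} {F M C : Type} [Field F] [Field M] [Field C] [Algebra K F]
    [Algebra F M] [Algebra K M] [Algebra K C] (pl : Plc K M C) (P : Pts K W F) (x : Pts K W K) :
    Prop :=
  ∀ i, pl.Spec (fun j => algebraMap F M (crd (P i) j)) (fun j => algebraMap K C (crd (x i) j))

/-- The `P i` have division points by `N` over `M`. -/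
def Divisible {W : Fin n → WeierstrassCurve ℤ} {F : Type} [Field F] [Algebra K F] (P : Pts K W F)
    (N : ℕ) (M : Type) [Field M] [Algebra F M] [Algebra K M] [IsScalarTower K F M] : Prop :=
  ∀ i, ∃ Q : ((ext (W i) K).baseChange M).toAffine.Point,
    N • Q = pm (ext (W i) K) (IsScalarTower.toAlgHom K F M) (P i)

variable [NumberField K]

/-- A place of `M` with values in an algebraic closure of the completion, for each finite place. -/
abbrev Places (K : Type) [Field K] [NumberField K] (M : Type) [Field M] [Algebra K M] : Type :=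
  ∀ v : HeightOneSpectrum (𝓞 K), Plc K M (AlgebraicClosure (v.adicCompletion K))

/-- The section `s` is given at each finite place `v` by the valuation `pl v`. -/
def Locally {F M B : Type} [Field F] [Field M] [Field B] [Algebra F M] [Algebra K M] [Algebra K B]
    (s : GalSection K F M B) (pl : Places K M) : Prop :=
  ∀ v, s.GivenBy (v.adicCompletion K) (pl v)

/-- The theorem on sections of `π₁(C)`: for every smooth variety `C` over `K` (function field `F`,
local rings of the points of codimension one) with a map to the closed subset `X` with the equations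
`S`, that is, a point `P` of `X` over `F`, and every section `s`, given at the finite places by
valuations `pl w`, of `Gal(M / F) → Gal(B / K)`, where `M` contains the maximal extension of `F`
unramified over `C`: if `K_v = ℚ_2` then for a `K`-rational point `x` of `X` the valuation `pl v` lies
over `x`, and `s` lifts to all the coverings of `P - x` by `2 ^ k`. -/
def SectionsFromPoints (K : Type) [Field K] [NumberField K] {n : ℕ} (W : Fin n → WeierstrassCurve ℤ)
    (S : Set (MvPolynomial (Fin n × Fin 3) K)) : Prop :=
  ∀ (F Ω M B : Type) [Field F] [Field Ω] [Field M] [Field B] [Algebra K F] [Algebra F Ω]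
    [Algebra K Ω] [Algebra F M] [Algebra K M] [Algebra K B] [IsScalarTower K F Ω]
    [IsScalarTower K F M] [IsAlgClosure F Ω] [IsAlgClosure K B]
    (C : Set (ValuationSubring F)), (∀ O ∈ C, ∀ c : K, algebraMap K F c ∈ O) →
    ∀ e : M →ₐ[F] Ω, unramified F Ω C ≤ e.fieldRange →
    ∀ P : Pts K W F, On S P → ∀ (s : GalSection K F M B) (pl : Places K M), Locally s pl →
    ∀ v : HeightOneSpectrum (𝓞 K), IsTwoAdic K v →
      ∃ x : Pts K W K, On S x ∧ Over (pl v) P x ∧
        ∀ (k : ℕ) (i : Fin n), LiftsDiff s (ext (W i) K) (P i) (x i) (2 ^ k)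

/-- There is no section, given at the finite places by valuations, of `Gal(M / F) → Gal(B / K)`, if `F`
has a point `P` of `X` (equations `S`) and `M` contains division points of the `P i` by `N`. -/
def NoSection (K : Type) [Field K] [NumberField K] {n : ℕ} (W : Fin n → WeierstrassCurve ℤ)
    (S : Set (MvPolynomial (Fin n × Fin 3) K)) (N : ℕ) : Prop :=
  ∀ (F M B : Type) [Field F] [Field M] [Field B] [Algebra K F] [Algebra F M]
    [Algebra K M] [Algebra K B] [IsScalarTower K F M] [IsAlgClosure K B]
    [Algebra.IsAlgebraic F M] (P : Pts K W F), On S P → Divisible P N M →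
    ¬ ∃ (s : GalSection K F M B) (pl : Places K M), Locally s pl

/-- For all closed subsets `X` of `W_1 × … × W_n` over `K`: the sections come at the places `v` with
`K_v = ℚ_2` from rational points of `X`, and if `X` has no rational point there is no section of some
finite level `2 ^ k`, for all varieties with a map to `X`. -/
def SectionsDecided (K : Type) [Field K] [NumberField K] {n : ℕ} (W : Fin n → WeierstrassCurve ℤ) :
    Prop :=
  ∀ S : Set (MvPolynomial (Fin n × Fin 3) K), (∀ f ∈ S, ∃ d, MultiHom d f) →
    SectionsFromPoints K W S ∧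
    ((¬ ∃ x : Pts K W K, On S x) → ∃ k : ℕ, NoSection K W S (2 ^ k))

end

/-- `y² = x³ + a D x² + b D² x` -/
def E (a b : ℤ) (D : ℕ) : WeierstrassCurve ℚ := ⟨0, (a : ℚ) * (D : ℚ), 0, (b : ℚ) * (D : ℚ) ^ 2, 0⟩

/-- the short equation `Y² = X³ - 27 (a² - 3 b) D² X + 27 (2 a³ - 9 a b) D³` of `E a b D`, with
`X = 9 x + 3 a D`, `Y = 27 y` -/
def short (a b : ℤ) (D : ℕ) : WeierstrassCurve ℤ :=
  ⟨0, 0, 0, -27 * (a ^ 2 - 3 * b) * (D : ℤ) ^ 2, 27 * (2 * a ^ 3 - 9 * a * b) * (D : ℤ) ^ 3⟩

/-- the quartic of `d` has a nontrivial point over `K` -/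
def Quartic (K : Type) [Field K] (a b d : ℤ) : Prop :=
  ∃ N M e : K, (M ≠ 0 ∨ e ≠ 0) ∧
    N ^ 2 = (d : K) * M ^ 4 + (a : K) * M ^ 2 * e ^ 2 + (b : K) / (d : K) * e ^ 4

/-- the Selmer group of the isogeny of degree two of `y² = x³ + a x² + b x` -/
def Sel (a b : ℤ) : Set ℤ :=
  {d | Squarefree d ∧ Quartic ℝ a b d ∧ ∀ (p : ℕ) [Fact p.Prime], Quartic ℚ_[p] a b d}

/-- `0` and `(0, 0)` are the only points of finite order of `E(ℚ_2)` -/
def TwoAdicTorsion (a b : ℤ) : Prop :=
  ∀ (P : (⟨0, (a : ℚ_[2]), 0, (b : ℚ_[2]), 0⟩ : WeierstrassCurve ℚ_[2]).toAffine.Point) (m : ℕ),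
    0 < m → m • P = 0 → P = 0 ∨ ∃ h, P = .some 0 0 h

/-- the Selmer groups of the isogeny of degree two and of its dual are as small as possible -/
def Minimal (a b : ℤ) : Prop := (Sel a b).ncard * (Sel (-2 * a) (a ^ 2 - 4 * b)).ncard = 4

/-- `E_D(ℚ)` is finite and `Ш(E_D/ℚ)[2^∞] = 0` -/
def TrivialTwo (a b : ℤ) (D : ℕ) : Prop :=
  Finite (E a b D).toAffine.Point ∧ ∀ (n : ℕ) (x : Sha (E a b D)), 2 ^ n • x = 0 → x = 0

section

variable {K : Type} [Field K] [NumberField K] {n : ℕ}

theorem general (W : Fin n → WeierstrassCurve ℤ) (hW : ∀ i, IsShort (W i))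
    (hR : ∀ i, TorsionRational (W i)) (hF : ∀ i, FiniteOver K (W i))
    (hv : ∃ v : HeightOneSpectrum (𝓞 K), IsTwoAdic K v) : SectionsDecided K W := by
  choose M0 hM1 hM2 using fun i => (hF i).2
  intro S hS
  refine ⟨?_, fun hX => ?_⟩
  · intro F Ω M B _ _ _ _ _ _ _ _ _ _ _ _ _ _ C hC e he P hPS s pl hp v hv
    have hΩ1 : IsAlgClosed Ω := IsAlgClosure.isAlgClosed F
    have hΩ2 : Algebra.IsAlgebraic F Ω := IsAlgClosure.isAlgebraic
    have hMalg : Algebra.IsAlgebraic F M := Algebra.IsAlgebraic.of_injective e e.injective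
    exact sections_two (fun i => (hW i).1) (fun i => (hW i).2) hR M0 hM1
      (fun i => (hF i).1) hM2 hS P hPS s pl hp
      (fun k i => div_unram (bs_sw (hW i).1) (disc_sw (hW i).1 (hW i).2)
        ((e.restrictScalars K).comp (toSAct s).j) C hC e he (P i) Nat.one_le_two_pow) v hv.1 hv.2
  · obtain ⟨v, hv1, hv2⟩ := hv
    exact no_section (fun i => (hW i).1) (fun i => (hW i).2) hR M0 hM1
      (fun i => (hF i).1) hM2 v hv1 hv2 hS (fun y hy => hX ⟨y, hy⟩)

end

/-- **Sections for products of elliptic curves with rational points of order two.** -/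
theorem result :
    -- the general theorem
    (∀ (K : Type) [Field K] [NumberField K] (n : ℕ) (W : Fin n → WeierstrassCurve ℤ),
      (∀ i, IsShort (W i)) → (∀ i, TorsionRational (W i)) → (∀ i, FiniteOver K (W i)) →
      (∃ v : HeightOneSpectrum (𝓞 K), IsTwoAdic K v) → SectionsDecided K W) ∧
    (∀ v : HeightOneSpectrum (𝓞 ℚ), ((2 : ℕ) : 𝓞 ℚ) ∈ v.asIdeal → IsTwoAdic ℚ v) ∧
    -- the curves with a rational point of order two
    (∀ (n : ℕ) (a b : Fin n → ℤ) (D : Fin n → ℕ),
      (∀ i, b i ≠ 0 ∧ a i ^ 2 - 4 * b i ≠ 0 ∧ TwoAdicTorsion (a i) (b i)) →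
      (∀ i, D i % 8 = 1) → (∀ i, TrivialTwo (a i) (b i) (D i)) →
      SectionsDecided ℚ (fun i => short (a i) (b i) (D i))) ∧
    -- smallest possible Selmer groups
    (∀ (a b : ℤ) (D : ℕ), b ≠ 0 → a ^ 2 - 4 * b ≠ 0 → D ≠ 0 → Minimal (a * D) (b * D ^ 2) →
      TrivialTwo a b D) ∧
    -- the local condition, and an example
    (∀ a b : ℤ, Even a → b % 4 = 2 → TwoAdicTorsion a b) ∧ Minimal 2 2 ∧ TrivialTwo 2 2 1 := by
  have key : ∀ (a b : ℤ) (D : ℕ), b ≠ 0 → a ^ 2 - 4 * b ≠ 0 → D ≠ 0 →
      Minimal (a * D) (b * D ^ 2) → TrivialTwo a b D := by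
    intro a b D hb hc hD h
    have hD' : (D : ℤ) ≠ 0 := by exact_mod_cast hD
    have h1 : b * (D : ℤ) ^ 2 ≠ 0 := mul_ne_zero hb (pow_ne_zero 2 hD')
    have h2 : (a * (D : ℤ)) ^ 2 - 4 * (b * (D : ℤ) ^ 2) ≠ 0 := by
      have e : (a * (D : ℤ)) ^ 2 - 4 * (b * (D : ℤ) ^ 2) = (a ^ 2 - 4 * b) * (D : ℤ) ^ 2 := by ring
      rw [e]
      exact mul_ne_zero hc (pow_ne_zero 2 hD')
    have h3 := Pool.Agent.U188.TS.triv_wc h1 h2 h
    have e : E a b D = Pool.Agent.Y682.wc (((a * (D : ℤ) : ℤ)) : ℚ) (((b * (D : ℤ) ^ 2 : ℤ)) : ℚ) := by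
      unfold E Pool.Agent.Y682.wc
      push_cast
      rfl
    unfold TrivialTwo
    rw [e]
    exact h3
  have hmin : Minimal 2 2 := Pool.Agent.U860.DS.sel_prod
  refine ⟨fun K _ _ n W hW hR hF hv => general W hW hR hF hv,
    fun v hv => Pool.Agent.U860.DS.q_two v hv, fun n a b D hA hC hT => ?_, key,
    fun a b ha hb => Pool.Agent.U860.DS.onlyTwo_of ha hb, hmin,
    key 2 2 1 (by decide) (by decide) (by decide) (by simpa using hmin)⟩
  obtain ⟨v, hv⟩ := Pool.Agent.U860.DS.exists_two' ℚ
  have hD0 : ∀ i, D i ≠ 0 := fun i h0 => by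
    have := hC i
    rw [h0] at this
    omega
  refine general _ (fun i => ⟨⟨rfl, rfl, rfl⟩, Pool.Agent.U860.DS.sh_delta_ne
    (hA i).1 (hA i).2.1 (hD0 i)⟩) (fun i => ?_) (fun i => ?_) ⟨v, Pool.Agent.U860.DS.q_two v hv⟩
  · have h8 : ((D i : ℕ) : ℤ) % 8 = 1 := by
      have := hC i
      omega
    obtain ⟨s, hs⟩ := Pool.Agent.Y971.SG.Lq.padic_sq2 h8
    have hs' : s ^ 2 = ((D i : ℕ) : ℚ_[2]) := by
      rw [sq, ← hs]
      push_cast
      rfl
    have hs0 : s ≠ 0 := by
      rintro rfl
      have h1 : ((D i : ℕ) : ℚ_[2]) ≠ 0 := by exact_mod_cast hD0 i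
      exact h1 (by rw [← hs']; norm_num)
    exact Pool.Agent.U860.DS.torRat_of (hA i).1 (hA i).2.1 (hA i).2.2 hs' hs0
  · obtain ⟨h1, h2⟩ := Pool.Agent.U188.TS.short_of_triv (hA i).1 (hA i).2.1 (hD0 i) (hT i)
    exact ⟨h1, 1, one_pos, h2⟩

end Pool.Agent.Results.MP_896029_ag.SectionsTwoIsogeny
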